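import Pool.Agent.N408.IB.Stm

/-!
# IB/VOLA: volume in `ℝ^3` in cylindrical coordinates (helper49)
-/

set_option autoImplicit false

open Real Set MeasureTheory

namespace N49.IB.VOLA

open IB408

lemma polar_part (g : ℝ → ENNReal) (hg : Measurable g) :
    ∫⁻ z : ℝ × ℝ, g (√(z.1 ^ 2 + z.2 ^ 2)) =
      ∫⁻ r in Ioi (0 : ℝ), ENNReal.ofReal (2 * π * r) * g r := by
  rw [← lintegral_comp_polarCoord_symm, polarCoord_target]
  have h1 : ∀ p : ℝ × ℝ, p ∈ Ioi (0 : ℝ) ×ˢ Ioo (-π) π →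
      ENNReal.ofReal p.1 • g (√((polarCoord.symm p).1 ^ 2 + (polarCoord.symm p).2 ^ 2)) =
      ENNReal.ofReal p.1 * g p.1 := by
    intro p hp
    have hp1 : (0 : ℝ) < p.1 := hp.1
    have h2 : (polarCoord.symm p).1 ^ 2 + (polarCoord.symm p).2 ^ 2 = p.1 ^ 2 := by
      rw [polarCoord_symm_apply]
      have := Real.sin_sq_add_cos_sq p.2
      simp only
      linear_combination p.1 ^ 2 * this
    rw [smul_eq_mul, h2, Real.sqrt_sq hp1.le]
  rw [setLIntegral_congr_fun (measurableSet_Ioi.prod measurableSet_Ioo) h1,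
    Measure.volume_eq_prod, ← Measure.prod_restrict,
    lintegral_prod _ (by fun_prop)]
  refine lintegral_congr fun r => ?_
  simp only
  rw [lintegral_const, Measure.restrict_apply_univ, Real.volume_Ioo,
    ENNReal.ofReal_mul (by positivity : (0 : ℝ) ≤ 2 * π), sub_neg_eq_add, ← two_mul]
  ring

theorem t : IB408.S_VOLA := by
  intro f hf
  have h1 : ∫⁻ y : E3, f (y 0, √(y 1 ^ 2 + y 2 ^ 2)) =
      ∫⁻ x : Fin 3 → ℝ, f (x 0, √(x 1 ^ 2 + x 2 ^ 2)) :=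
    (EuclideanSpace.volume_preserving_symm_measurableEquiv_toLp (Fin 3)).lintegral_comp_emb
      (MeasurableEquiv.measurableEmbedding _)
      (fun x : Fin 3 → ℝ => f (x 0, √(x 1 ^ 2 + x 2 ^ 2)))
  have h2 : ∫⁻ x : Fin 3 → ℝ, f (x 0, √(x 1 ^ 2 + x 2 ^ 2)) =
      ∫⁻ z : ℝ × (Fin 2 → ℝ), f (z.1, √(z.2 0 ^ 2 + z.2 1 ^ 2)) :=
    (volume_preserving_piFinSuccAbove (fun _ : Fin 3 => ℝ) 0).lintegral_comp_emb
      (MeasurableEquiv.measurableEmbedding _)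
      (fun z : ℝ × (Fin 2 → ℝ) => f (z.1, √(z.2 0 ^ 2 + z.2 1 ^ 2)))
  have h3 : ∀ a : ℝ, ∫⁻ w : Fin 2 → ℝ, f (a, √(w 0 ^ 2 + w 1 ^ 2)) =
      ∫⁻ z : ℝ × ℝ, f (a, √(z.1 ^ 2 + z.2 ^ 2)) := fun a =>
    (volume_preserving_finTwoArrow ℝ).lintegral_comp_emb
      (MeasurableEquiv.measurableEmbedding _)
      (fun z : ℝ × ℝ => f (a, √(z.1 ^ 2 + z.2 ^ 2)))
  rw [h1, h2, Measure.volume_eq_prod, lintegral_prod _ (by fun_prop),
    Measure.volume_eq_prod ℝ ℝ, ← Measure.prod_restrict, Measure.restrict_univ,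
    lintegral_prod _ (by fun_prop)]
  refine lintegral_congr fun a => ?_
  rw [h3 a]
  exact polar_part (fun r => f (a, r)) (by fun_prop)

end N49.IB.VOLA
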